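import Pool.Agent.W353.NF.EC
import Pool.Agent.W353.SN.Lim
import Pool.Agent.W353.SN.Main

/-!
# The subfields of a field with symmetric Galois group and the edge of the Hasse–Weil L-series

`E` is an elliptic curve over a number field `K` (for example `K = ℚ`), and `F/K` is an extension of
degree `n` whose closure `L/K` has the full symmetric group `Sₙ` as its Galois group.  The holomorphic
continuation of `L(E/M, s)` is not known for the fields `M` between `K` and `L`.  The theorem assumes
local meromorphic continuations at the point `3/2 + iτ` of the line `Re s = 3/2` bounding the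
half-plane of absolute convergence, and shows that the only zeros and poles there are those coming
from `K` and from the quadratic field `Q = K(√disc F)`: the order of `L(E/M, s)` depends only on
whether `M` contains `Q`.
-/

set_option autoImplicit false

namespace Pool.Agent.Results.MP_bf9450_nt.SymmetricClosure

open NumberField IsDedekindDomain Filter Topology

section
variable {F : Type} [Field F] [NumberField F]

/-- `V v` is, for every finite place `v`, an integral model of `E` with discriminant minimal at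
`v`. -/
def MinimalModels (E : WeierstrassCurve F)
    (V : HeightOneSpectrum (𝓞 F) → WeierstrassCurve (𝓞 F)) : Prop :=
  ∀ v : HeightOneSpectrum (𝓞 F),
    (∃ C : WeierstrassCurve.VariableChange F, C • E = (V v).map (algebraMap (𝓞 F) F)) ∧
    ∀ W : WeierstrassCurve (𝓞 F),
      (∃ C : WeierstrassCurve.VariableChange F, C • E = W.map (algebraMap (𝓞 F) F)) →
        ∀ n : ℕ, (V v).Δ ∈ v.asIdeal ^ n → W.Δ ∈ v.asIdeal ^ n

open Classical in
/-- The Euler product of the problem, computed from the numbers of affine points of the reductions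
of the models `V v`. -/
noncomputable def LSeries (V : HeightOneSpectrum (𝓞 F) → WeierstrassCurve (𝓞 F)) (s : ℂ) : ℂ :=
  ∏' v : HeightOneSpectrum (𝓞 F),
    (1 - ((((Ideal.absNorm v.asIdeal : ℕ) : ℤ) -
          ((Nat.card {p : (𝓞 F ⧸ v.asIdeal) × (𝓞 F ⧸ v.asIdeal) //
            p.2 ^ 2 + Ideal.Quotient.mk v.asIdeal (V v).a₁ * p.1 * p.2
              + Ideal.Quotient.mk v.asIdeal (V v).a₃ * p.2
            = p.1 ^ 3 + Ideal.Quotient.mk v.asIdeal (V v).a₂ * p.1 ^ 2
              + Ideal.Quotient.mk v.asIdeal (V v).a₄ * p.1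
              + Ideal.Quotient.mk v.asIdeal (V v).a₆} : ℕ) : ℤ) : ℤ) : ℂ)
          * ((Ideal.absNorm v.asIdeal : ℕ) : ℂ) ^ (-s)
      + (if (V v).Δ ∈ v.asIdeal then (0 : ℂ) else 1)
          * ((Ideal.absNorm v.asIdeal : ℕ) : ℂ) ^ (1 - 2 * s))⁻¹

/-- `log |L(3/2 + iτ + ε)| / log(1/ε)`; for a function with a meromorphic continuation of order `m` at
`3/2 + iτ` it tends to `-m` as `ε → 0+`. -/
noncomputable def size (V : HeightOneSpectrum (𝓞 F) → WeierstrassCurve (𝓞 F)) (τ ε : ℝ) : ℝ :=
  Real.log ‖LSeries V (3 / 2 + τ * Complex.I + ε)‖ / Real.log (1 / ε)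

/-- The `L`-series has a meromorphic continuation to a neighbourhood of `3/2 + iτ`, of order `m` at
`3/2 + iτ`. -/
def HasOrder (V : HeightOneSpectrum (𝓞 F) → WeierstrassCurve (𝓞 F)) (τ : ℝ) (m : ℤ) : Prop :=
  ∃ Λ : ℂ → ℂ, MeromorphicAt Λ (3 / 2 + τ * Complex.I) ∧
    (∀ᶠ s in 𝓝 ((3 / 2 : ℂ) + τ * Complex.I), (3 / 2 : ℝ) < s.re → Λ s = LSeries V s) ∧
    meromorphicOrderAt Λ (3 / 2 + τ * Complex.I) = m

end

section
variable {K : Type} [Field K] [NumberField K]

/-- The field `M ⊇ K` is a number field, and `L(E/M, s)` has a meromorphic continuation to a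
neighbourhood of `3/2 + iτ`, of order `m` at `3/2 + iτ`. -/
def OrderOver (E : WeierstrassCurve K) (M : IntermediateField K (AlgebraicClosure K)) (τ : ℝ)
    (m : ℤ) : Prop :=
  ∃ (_ : NumberField M) (V : HeightOneSpectrum (𝓞 M) → WeierstrassCurve (𝓞 M)),
    MinimalModels (E.map (algebraMap K M)) V ∧ HasOrder V τ m

end

section
variable (K F : Type) [Field K] [Field F] [Algebra K F]

/-- The permutation `i ↦ σ ∘ i` of the embeddings over `K` of `F` into the algebraic closure of `K`,
for `σ` in the absolute Galois group of `K`. -/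
noncomputable def perm :
    Gal(AlgebraicClosure K/K) →* Equiv.Perm (F →ₐ[K] AlgebraicClosure K) where
  toFun σ :=
    { toFun := fun i => (σ : AlgebraicClosure K →ₐ[K] AlgebraicClosure K).comp i
      invFun := fun i => ((σ⁻¹ : Gal(AlgebraicClosure K/K)) :
        AlgebraicClosure K →ₐ[K] AlgebraicClosure K).comp i
      left_inv := fun i => AlgHom.ext fun x => σ.symm_apply_apply (i x)
      right_inv := fun i => AlgHom.ext fun x => σ.apply_symm_apply (i x) }
  map_one' := Equiv.ext fun _ => AlgHom.ext fun _ => rfl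
  map_mul' _ _ := Equiv.ext fun _ => AlgHom.ext fun _ => rfl

/-- The closure of `F` over `K`: the compositum of the fields conjugate to `F`. -/
noncomputable def closure : IntermediateField K (AlgebraicClosure K) :=
  ⨆ i : F →ₐ[K] AlgebraicClosure K, i.fieldRange

/-- The Young subfield for an equivalence relation `r` on the embeddings: the elements fixed by all
`σ` mapping every embedding of `F` to an equivalent one. -/
noncomputable def youngField (r : Setoid (F →ₐ[K] AlgebraicClosure K)) :
    IntermediateField K (AlgebraicClosure K) :=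
  IntermediateField.fixedField
    ({ carrier := {σ | ∀ i, r i (perm K F σ i)}
       one_mem' := fun i => by rw [map_one]; exact r.refl i
       mul_mem' := fun {σ ρ} hσ hρ i => by
        rw [map_mul]
        exact r.trans (hρ i) (hσ (perm K F ρ i))
       inv_mem' := fun {σ} hσ i => by
        have h : r ((perm K F σ)⁻¹ i) (perm K F σ ((perm K F σ)⁻¹ i)) := hσ _
        have e : perm K F σ ((perm K F σ)⁻¹ i) = i := (perm K F σ).apply_symm_apply i
        rw [e] at h
        rw [map_inv]
        exact r.symm h } : Subgroup Gal(AlgebraicClosure K/K))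

open Classical in
/-- The quadratic field of `F`: the elements fixed by all `σ` giving an even permutation of the
embeddings of `F`; this is `K(√disc F)`. -/
noncomputable def quadField [NumberField K] [NumberField F] :
    IntermediateField K (AlgebraicClosure K) :=
  IntermediateField.fixedField (Equiv.Perm.sign.comp (perm K F)).ker

end

open Classical in
open Pool.Agent.W353.NF Pool.Agent.W353.AB Pool.Agent.W353.SN in
/-- **The closure of a field with symmetric Galois group.**  Let `E` be an elliptic curve over the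
number field `K`, `τ` a real number, and let `F/K` be an extension of degree `n` such that all
permutations of the embeddings `F → K̄` are given by `Gal(K̄/K)`; let `L` be the closure of `F` over
`K` and `Q = K(√disc F)`.  Let `τ ≠ 0` or `n ≥ 8`.  Suppose that for every Young subfield
`M` of `L` the function `L(E/M, s)` has a meromorphic continuation to a neighbourhood of `3/2 + iτ`,
and let `m r` be its order at `3/2 + iτ` for the Young subfield of the equivalence relation `r`.  So
`m ⊥` is the order for `L` and `m ⊤` the order for `K`.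

Let `M` be any field between `K` and `L`; put `k = m ⊥` if `M` contains `Q`, and `k = m ⊤` otherwise.
Then `L(E/M, 3/2 + iτ + ε) ≠ 0` for small `ε > 0`, and
`log |L(E/M, 3/2 + iτ + ε)| / log(1/ε) → -k` as `ε → 0+`; if `L(E/M, s)` has a meromorphic
continuation to a neighbourhood of `3/2 + iτ`, then its order there is `k`.

Moreover `|m ⊤| + |m ⊥ - m ⊤| ≤ 2`, and `|m ⊤| + |m ⊥ - m ⊤| ≤ 1` if `τ ≠ 0`. -/
theorem result (K : Type) [Field K] [NumberField K] (E : WeierstrassCurve K) (hE : E.IsElliptic)
    (F : Type) [Field F] [NumberField F] [Algebra K F] (hF : Function.Surjective (perm K F))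
    (τ : ℝ) (hτ : τ ≠ 0 ∨ 8 ≤ Module.finrank K F)
    (m : Setoid (F →ₐ[K] AlgebraicClosure K) → ℤ)
    (hm : ∀ r : Setoid (F →ₐ[K] AlgebraicClosure K), OrderOver E (youngField K F r) τ (m r)) :
    (∀ (M : IntermediateField K (AlgebraicClosure K)) [NumberField M], M ≤ closure K F →
      ∀ V : HeightOneSpectrum (𝓞 M) → WeierstrassCurve (𝓞 M),
      MinimalModels (E.map (algebraMap K M)) V →
      (∀ᶠ ε : ℝ in 𝓝[>] 0, LSeries V (3 / 2 + τ * Complex.I + ε) ≠ 0) ∧
      Tendsto (size V τ) (𝓝[>] 0) (𝓝 (-((if quadField K F ≤ M then m ⊥ else m ⊤ : ℤ) : ℝ))) ∧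
      ∀ k : ℤ, HasOrder V τ k → k = if quadField K F ≤ M then m ⊥ else m ⊤) ∧
    |m ⊤| + |m ⊥ - m ⊤| ≤ 2 ∧ (τ ≠ 0 → |m ⊤| + |m ⊥ - m ⊤| ≤ 1) := by
  classical
  obtain ⟨l, p, q, hl, hp, hq, hD⟩ := Pool.Agent.H341R2.EC.exists_integral E hE
  have hpi := Real.pi_gt_three
  have hcard : Nat.card (F →ₐ[K] AlgebraicClosure K) = Module.finrank K F := by
    rw [Nat.card_eq_fintype_card]
    exact AlgHom.card K F (AlgebraicClosure K)
  have hk2 : 2 * kap τ ≤ 2 := by
    unfold kap
    split_ifs
    · norm_num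
    · rw [show (2 : ℝ) * (2 / Real.pi) = 4 / Real.pi by ring, div_le_iff₀ (by linarith)]
      linarith
  have hk1 : τ ≠ 0 → 2 * kap τ < 3 / 2 := by
    intro h
    unfold kap
    rw [if_neg h]
    rw [show (2 : ℝ) * (2 / Real.pi) = 4 / Real.pi by ring, div_lt_iff₀ (by linarith)]
    linarith
  -- the fields of the Young subgroups
  have hyoung : ∀ g : PX K F, youngField K F (Equiv.Perm.SameCycle.setoid g) =
      MH K F (young g) := fun g => rfl
  have hYL : youngField K F ⊥ = MH K F ⊥ := by
    rw [← young_one (X := F →ₐ[K] AlgebraicClosure K), ← hyoung]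
    congr 1
    ext i j
    exact (Equiv.Perm.sameCycle_one).symm
  have hYK : youngField K F ⊤ = MH K F ⊤ := by
    unfold youngField MH
    congr 1
    ext σ
    exact ⟨fun _ => trivial, fun _ i => trivial⟩
  -- the limits
  have core : ∀ 𝒰 : Ultrafilter ℝ, (𝒰 : Filter ℝ) ≤ 𝓝[>] 0 → ∃ a b : ℤ,
      m ⊥ = -(a + b) ∧
      m ⊤ = -(a + b * (if (∀ h ∈ (⊤ : Subgroup (PX K F)), Equiv.Perm.sign h = 1) then 1 else 0)) ∧
      |((a + b : ℤ) : ℝ)| ≤ 2 * kap τ ∧
      ((∃ h : PX K F, Equiv.Perm.sign h ≠ 1) → |((a - b : ℤ) : ℝ)| ≤ 2 * kap τ) ∧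
      ∀ (H : Subgroup (PX K F)) [NumberField (MH K F H)] (X : ℝ → ℝ),
        (syE p q).IsSize (F := MH K F H) (fun _ => 1) τ X → Tendsto X 𝒰
          (𝓝 ((a + b * (if (∀ h ∈ H, Equiv.Perm.sign h = 1) then 1 else 0) : ℤ) : ℝ)) := by
    intro 𝒰 h𝒰
    obtain ⟨θ, hθb, hθc, hθs⟩ := exists_theta (K := K) (F := F) (syE p q) (syE_real p q) hF τ 𝒰 h𝒰
    rw [syE_b] at hθb
    -- sums over the subgroups
    have hsum : ∀ (H : Subgroup (PX K F)) (k : ℤ), OrderOver E (MH K F H) τ k →
        ∑ᶠ h : H, θ h = ((-k : ℤ) : ℝ) * Nat.card H := by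
      rintro H k ⟨hnf, V, hV, Λ, h1, h2, h3⟩
      have h4 := size_EF (K := K) (F := MH K F H) E hl hp hq hD V hV τ
      have h5 := (lim_order h4.1 h1 h2 h3).mono_left h𝒰
      have h6 := hθs H _ h4.2
      rw [tendsto_nhds_unique h6 (h5.const_mul (Nat.card H : ℝ))]
      push_cast
      ring
    have hYM : YMean θ := by
      intro g
      have h1 := hm (Equiv.Perm.SameCycle.setoid g)
      rw [hyoung] at h1
      exact ⟨_, hsum (young g) _ h1⟩
    have hθ : ∃ a b : ℤ, ∀ g, θ g = a + b * ((Equiv.Perm.sign g : ℤ) : ℝ) := by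
      rcases hτ with hτ | hn
      · exact main_small (fun g u => hθc g u) hYM (hk1 hτ) hθb
      · refine main_two (fun g u => hθc g u) hYM ?_ fun g => (hθb g).trans hk2
        rw [← Nat.card_eq_fintype_card, hcard]
        exact hn
    obtain ⟨a, b, hab⟩ := hθ
    have hHsum : ∀ H : Subgroup (PX K F), ∑ᶠ h : H, θ h =
        ((a + b * (if (∀ h ∈ H, Equiv.Perm.sign h = 1) then 1 else 0) : ℤ) : ℝ) *
          Nat.card H := by
      intro H
      have h1 := sum_sub H θ a b
      have h2 : ∑ᶠ h : H, (θ h - (a + b * ((Equiv.Perm.sign (h : PX K F) : ℤ) : ℝ))) = 0 := by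
        rw [← finsum_zero (α := H)]
        refine finsum_congr fun h => ?_
        rw [hab, sub_self]
      rw [h2, sum_sign] at h1
      have h3 : ∑ᶠ h : H, θ h = a * Nat.card H + b * (if ∀ h ∈ H, Equiv.Perm.sign h = 1 then
          (Nat.card H : ℝ) else 0) := by linarith
      rw [h3]
      split_ifs <;> push_cast <;> ring
    have hne : ∀ H : Subgroup (PX K F), (Nat.card H : ℝ) ≠ 0 := fun H => by
      exact_mod_cast Nat.card_pos.ne'
    have hord : ∀ (H : Subgroup (PX K F)) (k : ℤ), OrderOver E (MH K F H) τ k →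
        k = -(a + b * (if (∀ h ∈ H, Equiv.Perm.sign h = 1) then 1 else 0)) := by
      intro H k hk
      have h1 := hsum H k hk
      rw [hHsum] at h1
      have h3 := mul_right_cancel₀ (hne H) h1
      have h4 : a + b * (if (∀ h ∈ H, Equiv.Perm.sign h = 1) then 1 else 0) = -k := by
        exact_mod_cast h3
      rw [h4, neg_neg]
    refine ⟨a, b, ?_, hord ⊤ (m ⊤) (by rw [← hYK]; exact hm ⊤), ?_, ?_, ?_⟩
    · have h1 := hord ⊥ (m ⊥) (by rw [← hYL]; exact hm ⊥)
      rw [if_pos (fun h hh => by rw [(Subgroup.mem_bot).1 hh, Equiv.Perm.sign_one]),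
        mul_one] at h1
      exact h1
    · have h1 := hθb 1
      rw [hab 1, Equiv.Perm.sign_one] at h1
      push_cast at h1 ⊢
      rwa [mul_one] at h1
    · rintro ⟨g, hg⟩
      have hg' : Equiv.Perm.sign g = -1 := (Int.units_eq_one_or _).resolve_left hg
      have h2 := hθb g
      rw [hab, hg'] at h2
      push_cast at h2 ⊢
      rwa [mul_neg, mul_one, ← sub_eq_add_neg] at h2
    · intro H _ X hX
      have h1 := (hθs H X hX).const_mul ((Nat.card H : ℝ)⁻¹)
      rw [hHsum] at h1
      have e : (Nat.card H : ℝ)⁻¹ * (((a + b * (if (∀ h ∈ H, Equiv.Perm.sign h = 1) then 1 else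
          0) : ℤ) : ℝ) * Nat.card H) =
          ((a + b * (if (∀ h ∈ H, Equiv.Perm.sign h = 1) then 1 else 0) : ℤ) : ℝ) := by
        rw [mul_comm, mul_assoc, mul_inv_cancel₀ (hne H), mul_one]
      rw [e] at h1
      refine h1.congr fun ε => ?_
      rw [inv_mul_cancel_left₀ (hne H)]
  refine ⟨fun M _ hM V hV => ?_, ?_⟩
  · obtain ⟨H, hH⟩ : ∃ H, M = MH K F H := ⟨_, eq_MH K F hM⟩
    subst hH
    have hsz := size_EF (K := K) (F := MH K F H) E hl hp hq hD V hV τ
    have hiff : (∀ h ∈ H, Equiv.Perm.sign h = 1) ↔ quadField K F ≤ MH K F H := by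
      have h3 : quadField K F = MH K F (Equiv.Perm.sign (α := F →ₐ[K] AlgebraicClosure K)).ker :=
        rfl
      rw [h3]
      constructor
      · intro h
        exact IntermediateField.fixedField_antitone (Subgroup.comap_mono h)
      · intro h g hg
        obtain ⟨σ, rfl⟩ := hF g
        have h4 := IntermediateField.fixingSubgroup_antitone h
        rw [fix_MH, fix_MH] at h4
        exact h4 (show σ ∈ H.comap (act K F) from hg)
    have hlim : Tendsto (size V τ) (𝓝[>] 0)
        (𝓝 (-((if quadField K F ≤ MH K F H then m ⊥ else m ⊤ : ℤ) : ℝ))) := by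
      rw [tendsto_iff_ultrafilter]
      intro 𝒰 h𝒰
      obtain ⟨a, b, h1, h2, -, -, h3⟩ := core 𝒰 h𝒰
      have h4 := h3 H (size V τ) hsz.2
      convert h4 using 2
      by_cases hQ : quadField K F ≤ MH K F H
      · rw [if_pos hQ, if_pos (hiff.2 hQ), h1]
        push_cast
        ring
      · rw [if_neg hQ, if_neg (fun h => hQ (hiff.1 h)), h2, if_neg]
        · push_cast
          ring
        · intro h
          exact hQ (hiff.1 fun g hg => h g trivial)
    refine ⟨hsz.1, hlim, fun k hk => ?_⟩
    obtain ⟨Λ, h1, h2, h3⟩ := hk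
    have h4 := tendsto_nhds_unique (lim_order hsz.1 h1 h2 h3) hlim
    have h5 := neg_injective h4
    exact_mod_cast h5
  · obtain ⟨a, b, h1, h2, h3, h4, -⟩ := core (Ultrafilter.of (𝓝[>] 0)) (Ultrafilter.of_le _)
    have hbd : ((|m ⊤| + |m ⊥ - m ⊤| : ℤ) : ℝ) ≤ 2 * kap τ := by
      by_cases hall : ∀ g : PX K F, Equiv.Perm.sign g = 1
      · rw [if_pos fun g _ => hall g, mul_one] at h2
        rw [h1, h2, sub_self, abs_zero, add_zero, abs_neg]
        exact_mod_cast h3
      · have hall' : ¬ ∀ g ∈ (⊤ : Subgroup (PX K F)), Equiv.Perm.sign g = 1 := fun h =>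
          hall fun g => h g trivial
        rw [if_neg hall', mul_zero, add_zero] at h2
        push Not at hall
        have h5 := h4 hall
        rw [h1, h2]
        have e : -(a + b) - -a = -b := by ring
        rw [e, abs_neg, abs_neg]
        push_cast at h3 h5 ⊢
        rcases abs_cases (a : ℝ) with ⟨g3, -⟩ | ⟨g3, -⟩ <;>
          rcases abs_cases (b : ℝ) with ⟨g4, -⟩ | ⟨g4, -⟩ <;> rw [g3, g4] <;>
          rcases abs_le.1 h3 with ⟨g5, g6⟩ <;> rcases abs_le.1 h5 with ⟨g7, g8⟩ <;> linarith
    constructor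
    · exact_mod_cast hbd.trans hk2
    · intro hτ'
      have h6 : (|m ⊤| + |m ⊥ - m ⊤|) < 2 := by
        have h7 : ((|m ⊤| + |m ⊥ - m ⊤| : ℤ) : ℝ) < 2 := by
          have := hk1 hτ'
          linarith
        exact_mod_cast h7
      omega

end Pool.Agent.Results.MP_bf9450_nt.SymmetricClosure
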